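import Pool.Agent.TH316.AT.Ex

/-!
# EX-DX: `x`-derivatives of the Duhamel terms of the Parisi equation
-/

set_option autoImplicit false

open MeasureTheory ProbabilityTheory Set

namespace Pool.TH48.AT

open Pool.TH198.AT Pool.TH316.AT

lemma int_abs : Integrable (fun z : ℝ => |z|) (gaussianReal 0 1) := by
  have h := (memLp_id_gaussianReal (μ := 0) (v := 1) 1)
  have h' : Integrable (id : ℝ → ℝ) (gaussianReal 0 1) :=
    memLp_one_iff_integrable.mp (by simpa using h)
  exact h'.abs

lemma int_sq : Integrable (fun z : ℝ => z ^ 2) (gaussianReal 0 1) := by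
  have h := (memLp_id_gaussianReal (μ := 0) (v := 1) 2)
  have h' : MemLp (id : ℝ → ℝ) 2 (gaussianReal 0 1) := by simpa using h
  exact h'.integrable_sq

/-- the Gaussian lemma -/
lemma gauss_deriv (hS : St_STEIN) (g : ℝ → ℝ) (C : ℝ) (hg : Continuous g) (hC : ∀ x, |g x| ≤ C)
    (s : ℝ) (hs : 0 < s) (x : ℝ) :
    HasDerivAt (fun x => E1 (fun y => g (x + s * y))) (E1 (fun y => y * g (x + s * y)) / s) x := by
  have hC0 : 0 ≤ C := (abs_nonneg _).trans (hC 0)
  set G : ℝ → ℝ := fun x => ∫ v in (0 : ℝ)..x, g v with hG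
  have hGd : ∀ x, HasDerivAt G (g x) x := fun x => (hg.integral_hasStrictDerivAt 0 x).hasDerivAt
  have hGc : Continuous G := continuous_iff_continuousAt.mpr fun x => (hGd x).continuousAt
  have hGb : ∀ x, |G x| ≤ C * |x| := by
    intro x
    have := intervalIntegral.norm_integral_le_of_norm_le_const (a := (0 : ℝ)) (b := x) (f := g)
      (C := C) (fun y _ => by simpa using hC y)
    simpa [hG] using this
  have hst : ∀ x, E1 (fun y => g (x + s * y)) = E1 (fun z => z * G (x + s * z)) / s := by
    intro x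
    have h := hS (fun y => G (x + s * y)) (fun y => s * g (x + s * y)) (C * (|x| + s)) 1
      (fun y => by
        have h1 : HasDerivAt (fun y : ℝ => x + s * y) s y := by
          simpa using ((hasDerivAt_id y).const_mul s).const_add x
        have h2 := (hGd (x + s * y)).comp y h1
        rw [mul_comm] at h2
        exact h2)
      (by fun_prop)
      (fun y => by
        have e1 : (1 : ℝ) ≤ Real.exp (1 * |y|) := Real.one_le_exp (by positivity)
        have e2 : |y| ≤ Real.exp (1 * |y|) := by
          have := Real.add_one_le_exp (1 * |y|)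
          linarith [abs_nonneg y]
        calc |G (x + s * y)| ≤ C * |x + s * y| := hGb _
          _ ≤ C * (|x| * Real.exp (1 * |y|) + s * Real.exp (1 * |y|)) := by
            apply mul_le_mul_of_nonneg_left _ hC0
            calc |x + s * y| ≤ |x| + |s * y| := abs_add_le _ _
              _ = |x| * 1 + s * |y| := by rw [abs_mul, abs_of_pos hs]; ring
              _ ≤ _ := by gcongr
          _ = _ := by ring)
      (fun y => by
        have e1 : (1 : ℝ) ≤ Real.exp (1 * |y|) := Real.one_le_exp (by positivity)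
        calc |s * g (x + s * y)| = s * |g (x + s * y)| := by rw [abs_mul, abs_of_pos hs]
          _ ≤ s * C := by gcongr; exact hC _
          _ ≤ C * (|x| + s) * 1 := by nlinarith [mul_nonneg hC0 (abs_nonneg x)]
          _ ≤ _ := by gcongr)
    have h3 : E1 (fun y => s * g (x + s * y)) = s * E1 (fun y => g (x + s * y)) := by
      unfold E1; exact integral_const_mul _ _
    rw [h3] at h
    rw [eq_div_iff hs.ne', h]; ring
  have key : HasDerivAt (fun x => E1 (fun z => z * G (x + s * z)))
      (E1 (fun z => z * g (x + s * z))) x := by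
    unfold E1
    refine (hasDerivAt_integral_of_dominated_loc_of_deriv_le (s := Set.univ)
      (F := fun x z => z * G (x + s * z)) (F' := fun x z => z * g (x + s * z))
      (bound := fun z => C * |z|) Filter.univ_mem ?_ ?_ ?_ ?_ ?_ ?_).2
    · exact Filter.Eventually.of_forall fun x => (by fun_prop : Continuous fun z : ℝ =>
        z * G (x + s * z)).aestronglyMeasurable
    · refine Integrable.mono' (g := fun z => C * |x| * |z| + C * s * z ^ 2)
        ((int_abs.const_mul _).add (int_sq.const_mul _))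
        (by fun_prop : Continuous fun z : ℝ => z * G (x + s * z)).aestronglyMeasurable
        (Filter.Eventually.of_forall fun z => ?_)
      rw [Real.norm_eq_abs, abs_mul]
      calc |z| * |G (x + s * z)| ≤ |z| * (C * (|x| + s * |z|)) := by
            gcongr
            refine (hGb _).trans ?_
            gcongr
            calc |x + s * z| ≤ |x| + |s * z| := abs_add_le _ _
              _ = _ := by rw [abs_mul, abs_of_pos hs]
        _ = C * |x| * |z| + C * s * (|z| * |z|) := by ring
        _ = _ := by rw [abs_mul_abs_self]; ring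
    · exact (by fun_prop : Continuous fun z : ℝ => z * g (x + s * z)).aestronglyMeasurable
    · refine Filter.Eventually.of_forall fun z x _ => ?_
      rw [Real.norm_eq_abs, abs_mul, mul_comm]
      gcongr; exact hC _
    · exact int_abs.const_mul _
    · refine Filter.Eventually.of_forall fun z x _ => ?_
      have h1 : HasDerivAt (fun x : ℝ => x + s * z) 1 x := by
        simpa using (hasDerivAt_id x).add_const (s * z)
      have h2 := (hGd (x + s * z)).comp x h1
      rw [mul_one] at h2
      exact h2.const_mul z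
  have h4 := key.div_const s
  refine h4.congr_of_eventuallyEq (Filter.Eventually.of_forall fun x => ?_)
  exact hst x

lemma E1_abs_le (g : ℝ → ℝ) (C : ℝ) (hC : ∀ x, |g x| ≤ C) : |E1 g| ≤ C := by
  unfold E1
  have := norm_integral_le_of_norm_le (μ := gaussianReal 0 1) (f := g) (g := fun _ => C)
    (integrable_const _) (Filter.Eventually.of_forall fun y => by simpa using hC y)
  simpa using this

lemma E1_mul_abs_le (g : ℝ → ℝ) (C : ℝ) (hC : ∀ x, |g x| ≤ C) :
    |E1 (fun y => y * g y)| ≤ C * E1 (fun y => |y|) := by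
  unfold E1
  rw [← integral_const_mul, ← Real.norm_eq_abs]
  refine norm_integral_le_of_norm_le (int_abs.const_mul C)
    (Filter.Eventually.of_forall fun y => ?_)
  rw [Real.norm_eq_abs, abs_mul, mul_comm]
  gcongr; exact hC _

lemma meas_zt (ζ : ℝ → ℝ) (hζ : IsCdf ζ) : Measurable (zt ζ) := by
  have hm : Monotone (fun s : ℝ => ζ (max 0 (min s 1))) := by
    intro a b hab
    have h0 : ∀ s : ℝ, max 0 (min s 1) ∈ Icc (0 : ℝ) 1 := fun s =>
      ⟨le_max_left _ _, max_le zero_le_one (min_le_right _ _)⟩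
    exact hζ.1 (h0 a) (h0 b) (max_le_max le_rfl (min_le_min hab le_rfl))
  have h1 : zt ζ = fun s => if s ≤ 1 then ζ (max 0 (min s 1)) else 0 := by
    funext s
    unfold zt
    split_ifs with h
    · rw [min_eq_left h]
    · rfl
  rw [h1]
  exact Measurable.ite measurableSet_Iic hm.measurable measurable_const

lemma zt_bound (ζ : ℝ → ℝ) (hζ : IsCdf ζ) (s : ℝ) : |zt ζ s| ≤ 1 := by
  unfold zt
  split_ifs with h
  · have := hζ.2.1 (max 0 s) ⟨le_max_left _ _, max_le zero_le_one h⟩
    rw [abs_of_nonneg this.1]; exact this.2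
  · simp

lemma cont_E (g : ℝ → ℝ → ℝ) (C : ℝ) (hg : BC C g) (k t x : ℝ) :
    Continuous (fun u : ℝ => E1 (fun y => g (t + u ^ 2) (x + k * u * y))) := by
  unfold E1
  have hc := hg.1
  refine continuous_of_dominated (bound := fun _ => C) (fun u => ?_) (fun u => ?_)
    (integrable_const _) (Filter.Eventually.of_forall fun y => ?_)
  · exact (hc.comp (by fun_prop : Continuous fun y : ℝ =>
      (t + u ^ 2, x + k * u * y))).aestronglyMeasurable
  · exact Filter.Eventually.of_forall fun y => by simpa using hg.2 _ _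
  · exact hc.comp (by fun_prop : Continuous fun u : ℝ => (t + u ^ 2, x + k * u * y))

lemma cont_Ey (g : ℝ → ℝ → ℝ) (C : ℝ) (hg : BC C g) (k t x : ℝ) :
    Continuous (fun u : ℝ => E1 (fun y => y * g (t + u ^ 2) (x + k * u * y))) := by
  unfold E1
  have hc := hg.1
  refine continuous_of_dominated (bound := fun z => C * |z|) (fun u => ?_) (fun u => ?_)
    (int_abs.const_mul C) (Filter.Eventually.of_forall fun y => ?_)
  · exact (continuous_id.mul (hc.comp (by fun_prop : Continuous fun y : ℝ =>
      (t + u ^ 2, x + k * u * y)))).aestronglyMeasurable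
  · refine Filter.Eventually.of_forall fun y => ?_
    rw [Real.norm_eq_abs, abs_mul, mul_comm]
    gcongr; exact hg.2 _ _
  · exact continuous_const.mul (hc.comp (by fun_prop : Continuous fun u : ℝ =>
      (t + u ^ 2, x + k * u * y)))

lemma meas_F (ζ : ℝ → ℝ) (hζ : IsCdf ζ) (g : ℝ → ℝ → ℝ) (C : ℝ) (hg : BC C g) (k t x : ℝ) :
    Measurable (fun u : ℝ => 2 * u *
      (zt ζ (t + u ^ 2) * E1 (fun y => g (t + u ^ 2) (x + k * u * y)))) := by
  have h1 : Measurable (fun u : ℝ => zt ζ (t + u ^ 2)) :=
    (meas_zt ζ hζ).comp (by fun_prop : Measurable fun u : ℝ => t + u ^ 2)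
  exact (measurable_const.mul measurable_id).mul (h1.mul (cont_E g C hg k t x).measurable)

lemma meas_F' (ζ : ℝ → ℝ) (hζ : IsCdf ζ) (g : ℝ → ℝ → ℝ) (C : ℝ) (hg : BC C g) (k t x : ℝ) :
    Measurable (fun u : ℝ => 2 / k *
      (zt ζ (t + u ^ 2) * E1 (fun y => y * g (t + u ^ 2) (x + k * u * y)))) := by
  have h1 : Measurable (fun u : ℝ => zt ζ (t + u ^ 2)) :=
    (meas_zt ζ hζ).comp (by fun_prop : Measurable fun u : ℝ => t + u ^ 2)
  exact measurable_const.mul (h1.mul (cont_Ey g C hg k t x).measurable)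

lemma F_bound (ζ : ℝ → ℝ) (hζ : IsCdf ζ) (g : ℝ → ℝ → ℝ) (C : ℝ) (hg : BC C g) (k t x u : ℝ)
    (hu : u ∈ Ioc (0 : ℝ) 1) :
    |2 * u * (zt ζ (t + u ^ 2) * E1 (fun y => g (t + u ^ 2) (x + k * u * y)))| ≤ 2 * C := by
  have hC0 : 0 ≤ C := (abs_nonneg _).trans (hg.2 0 0)
  have h1 := zt_bound ζ hζ (t + u ^ 2)
  have h2 : |E1 (fun y => g (t + u ^ 2) (x + k * u * y))| ≤ C := E1_abs_le _ _ fun y => hg.2 _ _
  rw [abs_mul, abs_mul, abs_mul, abs_of_pos hu.1, abs_two]
  calc 2 * u * (|zt ζ (t + u ^ 2)| * |E1 (fun y => g (t + u ^ 2) (x + k * u * y))|)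
      ≤ 2 * 1 * (1 * C) := by
        gcongr
        · exact hu.2
    _ = 2 * C := by ring

lemma intF (ζ : ℝ → ℝ) (hζ : IsCdf ζ) (g : ℝ → ℝ → ℝ) (C : ℝ) (hg : BC C g) (k t x : ℝ) :
    IntervalIntegrable (fun u : ℝ => 2 * u *
      (zt ζ (t + u ^ 2) * E1 (fun y => g (t + u ^ 2) (x + k * u * y)))) volume 0 1 := by
  rw [intervalIntegrable_iff_integrableOn_Ioc_of_le zero_le_one]
  refine Measure.integrableOn_of_bounded (M := 2 * C) (by simp)
    (meas_F ζ hζ g C hg k t x).aestronglyMeasurable ?_
  filter_upwards [self_mem_ae_restrict measurableSet_Ioc] with u hu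
  exact F_bound ζ hζ g C hg k t x u hu

/-- EX-DX -/
theorem t_DX (hS : St_STEIN) (hX : St_HEATX) : St_DX := by
  intro β C ζ g G hβ hζ hg
  have hC0 : 0 ≤ C := (abs_nonneg _).trans (hg.2 0 0)
  have hk : 0 < √(2 * β ^ 2) := Real.sqrt_pos.mpr (by positivity)
  constructor
  · intro t ht x
    unfold SP SD
    refine HasDerivAt.const_mul _ ?_
    refine (intervalIntegral.hasDerivAt_integral_of_dominated_loc_of_deriv_le (s := Set.univ)
      (F := fun x u => 2 * u *
        (zt ζ (t + u ^ 2) * E1 (fun y => g (t + u ^ 2) (x + √(2 * β ^ 2) * u * y))))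
      (F' := fun x u => 2 / √(2 * β ^ 2) *
        (zt ζ (t + u ^ 2) * E1 (fun y => y * g (t + u ^ 2) (x + √(2 * β ^ 2) * u * y))))
      (bound := fun _ => 2 / √(2 * β ^ 2) * (1 * (C * E1 (fun y => |y|))))
      Filter.univ_mem ?_ ?_ ?_ ?_ ?_ ?_).2
    · exact Filter.Eventually.of_forall fun x => (meas_F ζ hζ g C hg _ t x).aestronglyMeasurable
    · exact intF ζ hζ g C hg _ t x
    · exact (meas_F' ζ hζ g C hg _ t x).aestronglyMeasurable
    · refine Filter.Eventually.of_forall fun u _ x _ => ?_
      have h1 := zt_bound ζ hζ (t + u ^ 2)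
      have h2 := E1_mul_abs_le (fun y => g (t + u ^ 2) (x + √(2 * β ^ 2) * u * y)) C
        fun y => hg.2 _ _
      rw [Real.norm_eq_abs, abs_mul, abs_mul, abs_of_pos (by positivity : 0 < 2 / √(2 * β ^ 2))]
      gcongr
    · exact intervalIntegrable_const
    · refine Filter.Eventually.of_forall fun u hu x _ => ?_
      rw [uIoc_of_le zero_le_one] at hu
      have hsu : 0 < √(2 * β ^ 2) * u := mul_pos hk hu.1
      have h1 := gauss_deriv hS (fun z => g (t + u ^ 2) z) C
        (hg.1.comp (by fun_prop : Continuous fun z : ℝ => (t + u ^ 2, z)))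
        (fun z => hg.2 _ _) _ hsu x
      have h2 := (h1.const_mul (zt ζ (t + u ^ 2))).const_mul (2 * u)
      have hu0 : u ≠ 0 := hu.1.ne'
      have hk0 := hk.ne'
      have e : 2 / √(2 * β ^ 2) * (zt ζ (t + u ^ 2) *
          E1 (fun y => y * g (t + u ^ 2) (x + √(2 * β ^ 2) * u * y))) =
          2 * u * (zt ζ (t + u ^ 2) *
          (E1 (fun y => y * g (t + u ^ 2) (x + √(2 * β ^ 2) * u * y)) /
            (√(2 * β ^ 2) * u))) := by
        generalize E1 (fun y => y * g (t + u ^ 2) (x + √(2 * β ^ 2) * u * y)) = A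
        generalize √(2 * β ^ 2) = k at hk0
        field_simp
      rw [e]
      exact h2
  · intro hG hGd t ht x
    unfold SP
    refine HasDerivAt.const_mul _ ?_
    refine (intervalIntegral.hasDerivAt_integral_of_dominated_loc_of_deriv_le (s := Set.univ)
      (F := fun x u => 2 * u *
        (zt ζ (t + u ^ 2) * E1 (fun y => G (t + u ^ 2) (x + √(2 * β ^ 2) * u * y))))
      (F' := fun x u => 2 * u *
        (zt ζ (t + u ^ 2) * E1 (fun y => g (t + u ^ 2) (x + √(2 * β ^ 2) * u * y))))
      (bound := fun _ => 2 * C)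
      Filter.univ_mem ?_ ?_ ?_ ?_ ?_ ?_).2
    · exact Filter.Eventually.of_forall fun x => (meas_F ζ hζ G C hG _ t x).aestronglyMeasurable
    · exact intF ζ hζ G C hG _ t x
    · exact (meas_F ζ hζ g C hg _ t x).aestronglyMeasurable
    · refine Filter.Eventually.of_forall fun u hu x _ => ?_
      rw [uIoc_of_le zero_le_one] at hu
      exact F_bound ζ hζ g C hg _ t x u hu
    · exact intervalIntegrable_const
    · refine Filter.Eventually.of_forall fun u hu x _ => ?_
      have h1 := hX (G (t + u ^ 2)) (g (t + u ^ 2)) C (fun z => hGd _ z)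
        (hg.1.comp (by fun_prop : Continuous fun z : ℝ => (t + u ^ 2, z)))
        (fun z => hg.2 _ _) (√(2 * β ^ 2) * u) x
      exact (h1.const_mul (zt ζ (t + u ^ 2))).const_mul (2 * u)

end Pool.TH48.AT
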